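import Pool.Agent.U365.POW.E
import Pool.Agent.Results.MP_dc323a_nt.WindowsWithoutExceptions

/-!
# The abc conjecture over the Gaussian integers for all triples with height near `s(m)`, `m - φ(m)` or `α m + β f(m)`

For a triple `a + b = c` of Gaussian integers let `H = max (|a|, |b|, |c|)`. Let `B` be real, `λ > 0` and `s = min (4
λ / 7) (6 / 11) + max (λ - 1) 0`. Let `s(m)` be the sum of the proper divisors of `m`. Let `G` have steps bounded
below by a positive constant and growth at most `v ^ d`, for example `G v = v`, `B` real, `λ > 0`, `θ ≥ 0` and `e = d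
s + θ < 1`. For a set of `m` of lower density at least `1 - e`: ALL coprime triples `a + b = c` of nonzero Gaussian
integers for which `H ^ 2` differs from `G (s(m))` by at most `s(m) ^ θ` satisfy `rad (abc) > B H ^ λ`; and the same
holds for `m - φ(m)` in place of `s(m)`. More precisely this holds for almost all `m` with a divisor `≥ m ^ (e + ρ)`
which is a prime or the product of two different primes, and for the values `g = α m + β f(m)` of multiplicative
functions with `f p = p + c` at the primes, uniformly in `|α|, |β| ≤ N ^ δ` and with a power saving in the number of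
the exceptional `m`.

The question asks for `λ = 1 - ε`, for which `s = min (4 λ / 7) (6 / 11)`. Proof. The starting theorem
`ExceptionalSetTwelveElevenths` of this problem bounds the number of the exceptional triples with `H ^ 2 ≤ X` by `X ^
(s + ε)`. Let `m = k v p` with large primes `p ≠ v`. Then `g = A v p + B (v + p) + B c`, `A = α k + β f(k)`, `B = β c
f(k)`, and so `(A v + B) (A p + B) = A g + B² - A B c`: for given `g`, `k`, `α`, `β` there are only `N^o(1)`
possibilities for `p` and `v` (tool `Pool.Agent.U365.POW`).
-/

set_option autoImplicit false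

namespace Pool.Agent.Results.MP_dc323a_nt.AliquotValues

open WindowsWithoutExceptions (IsPrimeSystem height expo All count)
open Pool.Agent.U365.POW (Values Dens values_set values_mono dens_mono)
open Pool.Agent.N733.TG (Expanding)

/-- all coprime triples `a + b = c` of nonzero Gaussian integers with `|H ^ 2 - G v| ≤ v ^ θ` satisfy
`rad (abc) > B H ^ lam`; the product of the absolute values over a prime system is the radical -/
def Near (B lam : ℝ) (G : ℕ → ℝ) (θ : ℝ) (v : ℕ) : Prop :=
  ∀ a b c : GaussianInt, a ≠ 0 → b ≠ 0 → c ≠ 0 → a + b = c → IsCoprime a b →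
    |height (a, b, c) ^ 2 - G v| ≤ (v : ℝ) ^ θ → ∀ S : Finset GaussianInt, IsPrimeSystem S (a * b * c) →
      B * height (a, b, c) ^ lam < ∏ Q ∈ S, ‖GaussianInt.toComplex Q‖

lemma expo_nonneg {lam : ℝ} (hlam : 0 < lam) : 0 ≤ expo lam :=
  add_nonneg (le_min (by positivity) (by norm_num)) (le_max_right _ _)

lemma near_of {B lam θ : ℝ} {G : ℕ → ℝ} {v : ℕ}
    (h : ∀ t ∈ All B lam, ¬ |height t ^ 2 - G v| ≤ (v : ℝ) ^ θ) : Near B lam G θ v := by
  intro a b c ha hb hc habc hcop hw S hS
  by_contra hcon
  push Not at hcon
  exact h (a, b, c) (Set.mem_iUnion.2 ⟨height (a, b, c), ha, hb, hc, habc, hcop, le_refl _, S, hS, hcon⟩) hw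

/-- **Theorem.** Let `G` have steps `≥ a > 0` and growth at most `v ^ d`, `B` real, `λ > 0`, `θ ≥ 0` and `e = d s + θ <
1`. For every `ρ > 0` the property `Near` holds for the values of similar functions as the aliquot sum (`Values`: for
`s(m)`, for `m - φ(m)` and for all `α m + β f(m)`, for almost all the `m` with a divisor `≥ m ^ (e + ρ)` which is a
prime or the product of two different primes), and it holds for `s(m)` and `m - φ(m)` for a set of `m` of lower
density at least `1 - e`. -/
theorem result : ∀ (G : ℕ → ℝ) (d : ℝ), Expanding G d → ∀ (B lam : ℝ) (θ : ℝ),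
    0 < lam → 0 ≤ θ → d * expo lam + θ < 1 →
    (∀ ρ : ℝ, 0 < ρ → Values (d * expo lam + θ + ρ) (Near B lam G θ)) ∧
      Dens (1 - (d * expo lam + θ)) (Near B lam G θ) := by
  intro G d hG B lam θ hlam hθ h1
  obtain ⟨h2, h3⟩ := values_set (All B lam) (fun t => height t ^ 2) hG (s := expo lam) (expo_nonneg hlam) hθ h1
    (fun ε hε => count B lam ε hlam hε)
  have hm : ∀ g : ℕ, (∀ t, |height t ^ 2 - G g| ≤ (g : ℝ) ^ θ → t ∉ (All B lam)) → Near B lam G θ g :=
    fun g hg => near_of (fun t ht hw => hg t hw ht)
  exact ⟨fun ρ hρ => values_mono (h2 ρ hρ) hm, dens_mono h3 le_rfl hm⟩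

end Pool.Agent.Results.MP_dc323a_nt.AliquotValues
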