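import Pool.Agent.U536.CF.F
import Pool.Agent.Results.MP_dc323a_nt.WindowsWithoutExceptions

/-!
# The abc conjecture over the Gaussian integers for all triples with height near an integer with a large common factor with a value of `f`

For a triple `a + b = c` of Gaussian integers let `H = max (|a|, |b|, |c|)`. Let `B` be real, `λ > 0` and `s = min (4
λ / 7) (6 / 11) + max (λ - 1) 0`. Let `f` be a positive multiplicative function of at most polynomial growth such that
`f p ≤ M p` for the large primes `p`, with different values at different large primes; for example Euler's function or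
the sum of the divisors. Let `G` have steps bounded below by a positive constant and growth at most `v^d`, for example
`α v^d`. Let `b < 1` and `0 ≤ c < 2 b - 1`. For all `m ≤ N` but `N exp (-(log N)^c)`, for EVERY integer `w ≥ exp ((log
N)^b)` with `gcd(w, f(m)) ≥ w^ρ`: ALL coprime triples `a + b = c` of nonzero Gaussian integers for which `H ^ 2`
differs from `G w` by at most `w ^ θ` satisfy `rad (abc) > B H ^ λ`, if `B` real, `λ > 0`, `θ ≥ 0` and `d s + θ < ρ ≤
1`. The integers `w` include all large divisors of `f(m)` and their multiples by small integers; for Euler's function,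
the orders of the elements of the group of units modulo `m`.

The question asks for `λ = 1 - ε`, for which `s = min (4 λ / 7) (6 / 11)`. Proof. The tool `Pool.Agent.U536.CF` bounds
the number of the `m ≤ N` for which such a `w` lies in a given set with a power saving, by Hölder's inequality for the
number of the ordered factorizations. The starting theorem `ExceptionalSetTwelveElevenths` of this problem bounds the
number of the exceptional triples with `H ^ 2 ≤ X` by `X ^ (s + ε)`.
-/

set_option autoImplicit false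

namespace Pool.Agent.Results.MP_dc323a_nt.CommonFactors

open WindowsWithoutExceptions (IsPrimeSystem height expo All count)
open Pool.Agent.N733.TG (LM Expanding lm_totient lm_sigma expanding_pow)
open Pool.Agent.U536.CF (Common common_windows common_of_dvd common_order)

/-- all coprime triples `a + b = c` of nonzero Gaussian integers with `|H ^ 2 - G v| ≤ v ^ θ` satisfy
`rad (abc) > B H ^ lam`; the product of the absolute values over a prime system is the radical -/
def Near (B lam : ℝ) (G : ℕ → ℝ) (θ : ℝ) (v : ℕ) : Prop :=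
  ∀ a b c : GaussianInt, a ≠ 0 → b ≠ 0 → c ≠ 0 → a + b = c → IsCoprime a b →
    |height (a, b, c) ^ 2 - G v| ≤ (v : ℝ) ^ θ → ∀ S : Finset GaussianInt, IsPrimeSystem S (a * b * c) →
      B * height (a, b, c) ^ lam < ∏ Q ∈ S, ‖GaussianInt.toComplex Q‖

lemma expo_nonneg {lam : ℝ} (hlam : 0 < lam) : 0 ≤ expo lam :=
  add_nonneg (le_min (by positivity) (by norm_num)) (le_max_right _ _)

lemma near_of {B lam θ : ℝ} {G : ℕ → ℝ} {v : ℕ}
    (h : ∀ t ∈ All B lam, ¬ |height t ^ 2 - G v| ≤ (v : ℝ) ^ θ) : Near B lam G θ v := by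
  intro a b c ha hb hc habc hcop hw S hS
  by_contra hcon
  push Not at hcon
  exact h (a, b, c) (Set.mem_iUnion.2 ⟨height (a, b, c), ha, hb, hc, habc, hcop, le_refl _, S, hS, hcon⟩) hw

/-- **The abc conjecture over the Gaussian integers for all triples with height near all integers with a large common
factor with a value of a multiplicative function.** Let `f` be multiplicative and positive, of at most polynomial
growth, with `f p ≤ M p` at the large primes, and injective there. Let `G` have steps `≥ a > 0` and growth at most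
`v^d`. Let `b < 1` and `0 ≤ c < 2 b - 1`, `B` real, `λ > 0`, `θ ≥ 0` and `d s + θ < ρ ≤ 1`. For all large `N`, for all
`m ≤ N` but `N exp (-(log N)^c)`, the property `Near` holds at EVERY integer `w ≥ exp ((log N)^b)` with `gcd(w, f(m))
≥ w^ρ`. All divisors `w ≥ exp ((log N)^b)` of `f(m)` are such integers `w`, and for Euler's function the orders `≥ exp
((log N)^b)` of the units modulo `m`. Euler's function and the sum of the divisors are examples of `f`, and `α v^d`
with `α > 0`, `d ≥ 1` is an example of `G`. -/
theorem result :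
    (∀ f : ℕ → ℕ, LM f → ∀ (G : ℕ → ℝ) (d : ℝ), Expanding G d → ∀ (B lam : ℝ)
      (θ ρ b c : ℝ), 0 < lam → 0 ≤ θ → d * expo lam + θ < ρ → ρ ≤ 1 → b < 1 → 0 ≤ c → c < 2 * b - 1 →
      ∃ N₀ : ℕ, ∀ N : ℕ, N₀ ≤ N →
        ({m : ℕ | 1 ≤ m ∧ m ≤ N ∧ ¬ ∀ w : ℕ, Common f b ρ N m w → Near B lam G θ w}.ncard : ℝ) ≤
          N * Real.exp (-(Real.log N ^ c))) ∧
    (LM Nat.totient ∧ LM (fun m => ∑ d ∈ m.divisors, d)) ∧
    (∀ α d : ℝ, 0 < α → 1 ≤ d → Expanding (fun v => α * (v : ℝ) ^ d) d) ∧
    (∀ (f : ℕ → ℕ) (b ρ : ℝ) (N m w : ℕ), ρ ≤ 1 → Real.exp (Real.log N ^ b) ≤ (w : ℝ) → w ∣ f m → Common f b ρ N m w) ∧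
    ∀ (b ρ : ℝ) (N m : ℕ), ρ ≤ 1 → ∀ x : (ZMod m)ˣ, Real.exp (Real.log N ^ b) ≤ (orderOf x : ℝ) →
      Common Nat.totient b ρ N m (orderOf x) := by
  refine ⟨?_, ⟨lm_totient, lm_sigma⟩, fun α d hα hd => expanding_pow hα hd, fun f b ρ N m w hρ hw hd => common_of_dvd hρ hw hd,
    fun b ρ N m hρ x hx => common_order hρ x hx⟩
  intro f hf G d hG B lam θ ρ b c hlam hθ h1 hρ hb hc hcb
  obtain ⟨N₀, hN₀⟩ := common_windows (All B lam) (fun t => height t ^ 2) hf hG (s := expo lam) (expo_nonneg hlam) hθ h1 hρ hb hc hcb
    (fun ε hε => count B lam ε hlam hε)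
  refine ⟨N₀, fun N hN => le_trans (Nat.cast_le.2 (Set.ncard_le_ncard ?_ ?_)) (hN₀ N hN)⟩
  · rintro m ⟨h2, h3, h4⟩
    push Not at h4
    obtain ⟨w, hw, h5⟩ := h4
    refine ⟨h2, h3, w, hw, ?_⟩
    by_contra hcon
    push Not at hcon
    exact h5 (near_of (fun t ht => not_le.2 (hcon t ht)))
  · exact (Set.finite_Icc 1 N).subset fun m hm => ⟨hm.1, hm.2.1⟩

end Pool.Agent.Results.MP_dc323a_nt.CommonFactors
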