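import Mathlib
import Pool.Agent.U624.Oct.Main

/-!
# The abc conjecture over `ℤ[i]` and the equation `x ^ 2 + 108 y ^ 4 = z ^ 3`

The abc conjecture over the Gaussian integers is equivalent to the inequality

  `rad(y) ≥ c(ε) max {|x| ^ 2, |z| ^ 3} ^ (1/6 - ε)`

for the solutions of the one equation `x ^ 2 + 108 y ^ 4 = z ^ 3` in Gaussian integers with `y ≠ 0` whose common
divisors of `x` and `z` divide `576`; also to the same inequality for the solutions `(T(u,v), f(u,v), H(u,v))`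
given by the octahedral forms

  `f = u v (u ^ 4 - v ^ 4)`, `H = u ^ 8 + 14 u ^ 4 v ^ 4 + v ^ 8`,
  `T = u ^ 12 - 33 u ^ 8 v ^ 4 - 33 u ^ 4 v ^ 8 + v ^ 12`,

which are few (at most `1296 X ^ (1/6)` up to height `X`), and for which the exponent `1/6` is the best possible.
-/

set_option autoImplicit false

namespace Pool.Agent.Results.MP_dc323a_nt.OctahedralEquation

/-- `max {|a|, |b|, |a + b|}` -/
noncomputable def size (a b : GaussianInt) : ℝ :=
  max ‖GaussianInt.toComplex a‖ (max ‖GaussianInt.toComplex b‖ ‖GaussianInt.toComplex (a + b)‖)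

/-- `rad(n)`: the product of `|Q|` over the Gaussian primes `Q` dividing `n`, one from each class of
associates, namely the one with `Re Q > 0` and `Im Q ≥ 0` -/
noncomputable def rad (n : GaussianInt) : ℝ :=
  ∏ᶠ Q ∈ {Q : GaussianInt | Prime Q ∧ Q ∣ n ∧ (0 < Q.re ∧ 0 ≤ Q.im)}, ‖GaussianInt.toComplex Q‖

/-- the solutions of `x ^ 2 + 108 y ^ 4 = z ^ 3` with `y ≠ 0` for which all common divisors of `x` and `z`
divide `576` -/
structure Solution (x y z : GaussianInt) : Prop where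
  equation : x ^ 2 + 108 * y ^ 4 = z ^ 3
  y_ne_zero : y ≠ 0
  common_divisors : ∀ d : GaussianInt, d ∣ x → d ∣ z → d ∣ 576

/-- the height `max {|x| ^ 2, |z| ^ 3}` of a solution -/
noncomputable def height (x z : GaussianInt) : ℝ :=
  max (‖GaussianInt.toComplex x‖ ^ 2) (‖GaussianInt.toComplex z‖ ^ 3)

/-- the octahedral form of degree 12 -/
def T (u v : GaussianInt) : GaussianInt := u ^ 12 - 33 * u ^ 8 * v ^ 4 - 33 * u ^ 4 * v ^ 8 + v ^ 12

/-- the octahedral form of degree 6 -/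
def f (u v : GaussianInt) : GaussianInt := u * v * (u ^ 4 - v ^ 4)

/-- the octahedral form of degree 8 -/
def H (u v : GaussianInt) : GaussianInt := u ^ 8 + 14 * u ^ 4 * v ^ 4 + v ^ 8

/-- the abc conjecture over the Gaussian integers -/
def Abc : Prop := ∀ ε : ℝ, 0 < ε → ∃ c : ℝ, 0 < c ∧ ∀ a b : GaussianInt, a ≠ 0 → b ≠ 0 → a + b ≠ 0 →
  IsCoprime a b → c * size a b ^ (1 - ε) ≤ rad (a * b * (a + b))

/-- the abc inequality for those coprime triples `a + b = c` which arise from a solution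
`x ^ 2 + 108 y ^ 4 = z ^ 3` by division by a common factor `g` -/
def AbcOnSolutions : Prop := ∀ ε : ℝ, 0 < ε → ∃ c : ℝ, 0 < c ∧ ∀ a b x y z g : GaussianInt,
  Solution x y z → g * a = x ^ 2 → g * b = 108 * y ^ 4 → a ≠ 0 → b ≠ 0 → a + b ≠ 0 →
  IsCoprime a b → c * size a b ^ (1 - ε) ≤ rad (a * b * (a + b))

/-- the inequality for the radical of `y` alone, for all solutions -/
def RadicalOfY : Prop := ∀ ε : ℝ, 0 < ε → ∃ c : ℝ, 0 < c ∧ ∀ x y z : GaussianInt,
  Solution x y z → c * height x z ^ (1 / 6 - ε) ≤ rad y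

/-- the inequality for the radical of `y` alone, for the solutions given by the octahedral forms -/
def RadicalOfForm : Prop := ∀ ε : ℝ, 0 < ε → ∃ c : ℝ, 0 < c ∧ ∀ u v : GaussianInt,
  IsCoprime u v → f u v ≠ 0 → c * height (T u v) (H u v) ^ (1 / 6 - ε) ≤ rad (f u v)

/-- the solutions of height at most `X` given by the octahedral forms -/
def Family (X : ℝ) : Set (GaussianInt × GaussianInt × GaussianInt) :=
  {t | ∃ u v : GaussianInt, IsCoprime u v ∧ f u v ≠ 0 ∧ t = (T u v, f u v, H u v) ∧ height t.1 t.2.2 ≤ X}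

theorem result :
    List.TFAE [Abc, AbcOnSolutions, RadicalOfY, RadicalOfForm] ∧
    (∀ u v : GaussianInt, IsCoprime u v → f u v ≠ 0 → Solution (T u v) (f u v) (H u v)) ∧
    (∀ X : ℝ, 1 ≤ X → (Family X).Finite ∧ ((Family X).ncard : ℝ) ≤ 1296 * X ^ (1 / 6 : ℝ)) ∧
    (∀ N : ℝ, ∃ u v : GaussianInt, IsCoprime u v ∧ f u v ≠ 0 ∧ N ≤ height (T u v) (H u v) ∧
      rad (f u v) ≤ 4 * height (T u v) (H u v) ^ (1 / 6 : ℝ)) := by
  have hsol : ∀ x y z : GaussianInt, Solution x y z ↔ Pool.Agent.U624.Oct.Sol x y z :=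
    fun x y z => ⟨fun h => ⟨h.1, h.2, h.3⟩, fun h => ⟨h.1, h.2, h.3⟩⟩
  refine ⟨?_, ?_, ?_, ?_⟩
  · tfae_have 1 → 2 := by
      intro h ε hε
      obtain ⟨c, hc, h1⟩ := h ε hε
      exact ⟨c, hc, fun a b _ _ _ _ _ _ _ ha hb hab hco => h1 a b ha hb hab hco⟩
    tfae_have 2 → 3 := by
      intro h ε hε
      obtain ⟨c, hc, h1⟩ := Pool.Agent.U624.Oct.rad_of_points (fun ε hε => by
        obtain ⟨c, hc, h1⟩ := h ε hε
        exact ⟨c, hc, fun a b x y z g hS => h1 a b x y z g ((hsol x y z).2 hS)⟩) ε hε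
      exact ⟨c, hc, fun x y z hS => h1 x y z ((hsol x y z).1 hS)⟩
    tfae_have 3 → 4 := by
      intro h ε hε
      obtain ⟨c, hc, h1⟩ := h ε hε
      exact ⟨c, hc, fun u v huv hf => h1 _ _ _ ((hsol _ _ _).2 (Pool.Agent.U624.Oct.sol_forms huv hf))⟩
    tfae_have 4 → 1 := Pool.Agent.U624.Oct.abc_of_forms
    tfae_finish
  · exact fun u v huv hf => (hsol _ _ _).2 (Pool.Agent.U624.Oct.sol_forms huv hf)
  · exact fun X hX => Pool.Agent.U624.Oct.count hX
  · exact Pool.Agent.U624.Oct.sharp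

end Pool.Agent.Results.MP_dc323a_nt.OctahedralEquation
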