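import Pool.Agent.U405.RS.F2
import Pool.Agent.Results.MP_dc323a_nt.WindowsWithoutExceptions

/-!
# The abc conjecture over the Gaussian integers for all triples with height near a value of `f` at thin sets of arguments

For a triple `a + b = c` of Gaussian integers let `H = max (|a|, |b|, |c|)`. Let `B` be real, `λ > 0` and `s = min (4
λ / 7) (6 / 11) + max (λ - 1) 0`. Let `f` be a positive multiplicative function of at most polynomial growth which for
each `a ≥ 1` is injective at the powers `p ^ a` of the large primes and at most `M p ^ a` there; for example Euler's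
function or the sum of the divisors. Let `G` have steps bounded below by a positive constant and growth at most `v ^
d`, for example `α v ^ d` with `α > 0` and `d ≥ 1`. Let `θ ≥ 0` and `e = d s + θ`. ALL coprime triples `a + b = c` of
nonzero Gaussian integers for which `H ^ 2` differs from `G (f v)` by at most `(f v) ^ θ` satisfy `rad (abc) > B H ^
λ`, for almost all `v` (with a saving of any power of the logarithm) in each of these sets:

* the values of any integer polynomial without repeated roots, of degree `< 1 / e`;
* the shifted primes `p + a`, `a` any integer, if `e < 1`;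
* the intervals `(x, x + y]`, `x^τ ≤ y ≤ x`, for every `τ > e`, `τ ≤ 1`.

The question asks for `λ = 1 - ε`, for which `s = min (4 λ / 7) (6 / 11)`. Proof. The tool `Pool.Agent.U405.RS`
(weighted Rankin method) shows that the values of `f` at almost all elements of these sets avoid every set with a
power saving. The starting theorem `ExceptionalSetTwelveElevenths` of this problem bounds the number of the
exceptional triples with `H ^ 2 ≤ X` by `X ^ (s + ε)`.
-/

set_option autoImplicit false

namespace Pool.Agent.Results.MP_dc323a_nt.SparseArguments

open WindowsWithoutExceptions (IsPrimeSystem height expo All count)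
open Pool.Agent.N733.TG (Expanding expanding_pow)
open Pool.Agent.U405.RS (PM Sparse sparse_set' examples)

/-- all coprime triples `a + b = c` of nonzero Gaussian integers with `|H ^ 2 - G v| ≤ v ^ θ` satisfy
`rad (abc) > B H ^ lam`; the product of the absolute values over a prime system is the radical -/
def Near (B lam : ℝ) (G : ℕ → ℝ) (θ : ℝ) (v : ℕ) : Prop :=
  ∀ a b c : GaussianInt, a ≠ 0 → b ≠ 0 → c ≠ 0 → a + b = c → IsCoprime a b →
    |height (a, b, c) ^ 2 - G v| ≤ (v : ℝ) ^ θ → ∀ S : Finset GaussianInt, IsPrimeSystem S (a * b * c) →
      B * height (a, b, c) ^ lam < ∏ Q ∈ S, ‖GaussianInt.toComplex Q‖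

lemma expo_nonneg {lam : ℝ} (hlam : 0 < lam) : 0 ≤ expo lam :=
  add_nonneg (le_min (by positivity) (by norm_num)) (le_max_right _ _)

lemma near_of {B lam θ : ℝ} {G : ℕ → ℝ} {v : ℕ}
    (h : ∀ t ∈ All B lam, ¬ |height t ^ 2 - G v| ≤ (v : ℝ) ^ θ) : Near B lam G θ v := by
  intro a b c ha hb hc habc hcop hw S hS
  by_contra hcon
  push Not at hcon
  exact h (a, b, c) (Set.mem_iUnion.2 ⟨height (a, b, c), ha, hb, hc, habc, hcop, le_refl _, S, hS, hcon⟩) hw

/-- **The abc conjecture over the Gaussian integers for all triples with height near the values of `f` at thin sets of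
arguments.** Let `f` be in the class `PM`, let `G` have steps `≥ const > 0` and growth at most `v ^ d`, `B` real, `λ >
0`, `θ ≥ 0`. For every `U` the property `Near` holds in the sense `Sparse e f`, `e = d s + θ`: with a saving of `(log
x)^U` it holds at `f v` for almost all `v` among the positive values of every integer polynomial without repeated
roots of degree `< 1 / e`; among the shifted primes `p + a` for every `a`, if `e < 1`; and in all intervals `(x, x +
y]`, `x^τ ≤ y ≤ x`, `e < τ ≤ 1`. Euler's function, the sum of the divisors and the identity are in the class, and `α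
v^d` with `α > 0`, `d ≥ 1` is an example of `G`. -/
theorem result :
    (∀ f : ℕ → ℕ, PM f → ∀ (G : ℕ → ℝ) (d : ℝ), Expanding G d → ∀ (B lam : ℝ) (θ : ℝ),
      0 < lam → 0 ≤ θ → ∀ U : ℕ, Sparse (d * expo lam + θ) f (Near B lam G θ) U) ∧
    (PM Nat.totient ∧ PM (fun m => ∑ d ∈ m.divisors, d) ∧ PM (fun m => m)) ∧
    ∀ α d : ℝ, 0 < α → 1 ≤ d → Expanding (fun v => α * (v : ℝ) ^ d) d := by
  refine ⟨?_, examples, fun α d hα hd => expanding_pow hα hd⟩
  intro f hf G d hG B lam θ hlam hθ U
  exact sparse_set' (All B lam) (fun t => height t ^ 2) hf hG (s := expo lam) (expo_nonneg hlam) hθ rfl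
    (fun ε hε => count B lam ε hlam hε) _ U (fun v hv => near_of hv)

end Pool.Agent.Results.MP_dc323a_nt.SparseArguments
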